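import Pool.Agent.Lib.MP_883b72_an.AS.Basic

/-! # Average shadowing: orbits which imitate an invariant measure -/

namespace Pool.Agent.Lib.MP_883b72_an.AS

open Filter Topology Finset MeasureTheory

universe u

/-- Periodic sums. -/
theorem sum_periodic {h : ℕ → ℝ} {W : ℕ} (hp : ∀ i, h (i + W) = h i) (i : ℕ) :
    ∑ r ∈ range W, h (i + r) = ∑ r ∈ range W, h r := by
  induction i with
  | zero => simp
  | succ i ih =>
    rw [← ih]
    have e1 := Finset.sum_range_succ (fun r => h (i + r)) W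
    have e2 := Finset.sum_range_succ' (fun r => h (i + r)) W
    have e3 : ∑ r ∈ range W, h (i + 1 + r) = ∑ r ∈ range W, h (i + (r + 1)) :=
      Finset.sum_congr rfl fun r _ => by rw [show i + 1 + r = i + (r + 1) by ring]
    rw [hp] at e1
    rw [add_zero] at e2
    rw [e3]
    linarith

/-- Shifted double sums. -/
theorem sum_shift {b : ℕ → ℝ} (hb : ∀ i, 0 ≤ b i) (N W : ℕ) :
    ∑ i ∈ range N, ∑ r ∈ range W, b (i + r) ≤ W * ∑ i ∈ range (N + W), b i := by
  rw [Finset.sum_comm]
  calc ∑ r ∈ range W, ∑ i ∈ range N, b (i + r)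
      ≤ ∑ _r ∈ range W, ∑ i ∈ range (N + W), b i := by
        refine Finset.sum_le_sum fun r hr => ?_
        have e : ∑ i ∈ range N, b (i + r) = ∑ i ∈ range N, b (r + i) :=
          Finset.sum_congr rfl fun i _ => by rw [add_comm]
        have e1 : ∑ i ∈ range (r + N), b i = ∑ i ∈ range r, b i + ∑ i ∈ range N, b (r + i) :=
          Finset.sum_range_add b r N
        have e2 : 0 ≤ ∑ i ∈ range r, b i := Finset.sum_nonneg fun i _ => hb i
        have e3 : ∑ i ∈ range (r + N), b i ≤ ∑ i ∈ range (N + W), b i := by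
          refine Finset.sum_le_sum_of_subset_of_nonneg ?_ fun i _ _ => hb i
          intro i hi
          rw [Finset.mem_range] at hi hr ⊢
          omega
        rw [e]
        linarith
    _ = _ := by rw [Finset.sum_const, Finset.card_range, nsmul_eq_mul]

/-- The sum over consecutive pieces. -/
theorem sum_pieces {h : ℕ → ℝ} (n L : ℕ) :
    ∑ i ∈ range (n * L), h i = ∑ l ∈ range L, ∑ r ∈ range n, h (n * l + r) := by
  induction L with
  | zero => simp
  | succ L ih => rw [Nat.mul_succ, Finset.sum_range_add, ih, Finset.sum_range_succ]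

section

variable {X : Type u} [MetricSpace X] [CompactSpace X] {f : X → X}

/-- Continuous functions are almost Lipschitz. -/
theorem almost_lip {g : X → ℝ} (hg : Continuous g) {ε : ℝ} (hε : 0 < ε) :
    ∃ C : ℝ, 0 ≤ C ∧ ∀ a b : X, |g a - g b| ≤ ε + C * dist a b := by
  have huc := CompactSpace.uniformContinuous_of_continuous hg
  obtain ⟨δ, hδ, h⟩ := Metric.uniformContinuous_iff.1 huc ε hε
  obtain ⟨M, hM⟩ : ∃ M : ℝ, ∀ a, |g a| ≤ M := by
    obtain ⟨M, hM⟩ := isCompact_univ.exists_bound_of_continuousOn hg.continuousOn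
    exact ⟨M, fun a => hM a (Set.mem_univ a)⟩
  by_cases hX : Nonempty X
  · obtain ⟨x0⟩ := hX
    have hM0 : 0 ≤ M := (abs_nonneg _).trans (hM x0)
    refine ⟨2 * M / δ, by positivity, fun a b => ?_⟩
    rcases lt_or_ge (dist a b) δ with h1 | h1
    · have := h h1
      rw [Real.dist_eq] at this
      have h2 : 0 ≤ 2 * M / δ * dist a b := by positivity
      linarith
    · have h2 : 2 * M ≤ 2 * M / δ * dist a b := by
        rw [div_mul_eq_mul_div, le_div_iff₀ hδ]
        exact mul_le_mul_of_nonneg_left h1 (by positivity)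
      have h3 : |g a - g b| ≤ |g a| + |g b| := abs_sub _ _
      have := hM a
      have := hM b
      linarith
  · exact ⟨0, le_rfl, fun a => absurd ⟨a⟩ hX⟩

variable [MeasurableSpace X] [BorelSpace X]

/-- Finitely many points represent a measure. -/
theorem exists_samples {μ : Measure X} [IsProbabilityMeasure μ] {ι : Type*} (F : Finset ι)
    (v : ι → X → ℝ) (hv : ∀ j ∈ F, Continuous (v j)) (h0 : ∀ j ∈ F, ∫ y, v j y ∂μ = 0) {C : ℝ}
    (hC : ∀ y, ∑ j ∈ F, v j y ^ 2 ≤ C) (L : ℕ) :
    ∃ y : ℕ → X, ∑ j ∈ F, (∑ l ∈ range L, v j (y l)) ^ 2 ≤ C * L := by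
  induction L with
  | zero =>
    have : Nonempty X := by
      by_contra h
      rw [not_nonempty_iff] at h
      have := measure_univ (μ := μ)
      rw [Set.univ_eq_empty_iff.2 h, measure_empty] at this
      exact zero_ne_one this
    exact ⟨fun _ => Classical.arbitrary X, by simp⟩
  | succ L ih =>
    obtain ⟨y, hy⟩ := ih
    set S : ι → ℝ := fun j => ∑ l ∈ range L, v j (y l) with hS
    have i1 : ∀ j ∈ F, Integrable (fun w => 2 * S j * v j w) μ := fun j hj =>
      cont_int (continuous_const.mul (hv j hj))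
    have i2 : ∀ j ∈ F, Integrable (fun w => v j w ^ 2) μ := fun j hj =>
      cont_int ((hv j hj).pow 2)
    have i3 : Integrable (fun w => ∑ j ∈ F, (S j + v j w) ^ 2) μ := by
      refine integrable_finsetSum _ fun j hj => ?_
      exact cont_int ((continuous_const.add (hv j hj)).pow 2)
    obtain ⟨w, hw⟩ := exists_le_integral i3
    have e : ∫ w, ∑ j ∈ F, (S j + v j w) ^ 2 ∂μ ≤ C * L + C := by
      have e1 : ∫ w, ∑ j ∈ F, (S j + v j w) ^ 2 ∂μ =
          ∑ j ∈ F, S j ^ 2 + ∫ w, ∑ j ∈ F, v j w ^ 2 ∂μ := by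
        have i4 : ∀ j ∈ F, Integrable (fun w => (S j + v j w) ^ 2) μ := fun j hj =>
          cont_int ((continuous_const.add (hv j hj)).pow 2)
        rw [integral_finsetSum _ i4, integral_finsetSum _ i2, ← Finset.sum_add_distrib]
        refine Finset.sum_congr rfl fun j hj => ?_
        have e2 : ∀ w, (S j + v j w) ^ 2 = S j ^ 2 + 2 * S j * v j w + v j w ^ 2 := fun w => by ring
        simp_rw [e2]
        have i5 : Integrable (fun w => S j ^ 2 + 2 * S j * v j w) μ :=
          (integrable_const _).add (i1 j hj)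
        rw [integral_add i5 (i2 j hj),
          integral_add (integrable_const _) (i1 j hj), integral_const, integral_const_mul,
          h0 j hj]
        simp
      have e3 : ∫ w, ∑ j ∈ F, v j w ^ 2 ∂μ ≤ C := by
        have := integral_mono (μ := μ) (integrable_finsetSum _ i2) (integrable_const C) hC
        simpa using this
      rw [e1]
      linarith
    refine ⟨fun l => if l < L then y l else w, ?_⟩
    have e4 : ∀ j, ∑ l ∈ range (L + 1), v j (if l < L then y l else w) = S j + v j w := by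
      intro j
      rw [Finset.sum_range_succ, if_neg (lt_irrefl _)]
      congr 1
      exact Finset.sum_congr rfl fun l hl => by rw [if_pos (Finset.mem_range.1 hl)]
    simp_rw [e4]
    push_cast
    linarith

/-- The average over a piece of an orbit. -/
noncomputable def av (f : X → X) (n : ℕ) (g : X → ℝ) (y : X) : ℝ :=
  (∑ i ∈ range n, g (f^[i] y)) / n

omit [CompactSpace X] [MeasurableSpace X] [BorelSpace X] in
theorem av_cont (hf : Continuous f) (n : ℕ) {g : X → ℝ} (hg : Continuous g) :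
    Continuous (av f n g) := by
  unfold av
  refine Continuous.div_const (continuous_finsetSum _ fun i _ => hg.comp (hf.iterate i)) _

theorem av_integral (hf : Continuous f) {n : ℕ} (hn : 0 < n) {g : X → ℝ} (hg : Continuous g)
    {μ : Measure X} [IsProbabilityMeasure μ] (h : μ.map f = μ) :
    ∫ y, av f n g y ∂μ = ∫ y, g y ∂μ := by
  unfold av
  have hn0 : (n : ℝ) ≠ 0 := by exact_mod_cast hn.ne'
  have i1 : ∀ i ∈ range n, Integrable (fun y => g (f^[i] y)) μ := fun i _ =>
    cont_int (hg.comp (hf.iterate i))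
  rw [integral_div, integral_finsetSum _ i1]
  have : ∀ i ∈ range n, ∫ y, g (f^[i] y) ∂μ = ∫ y, g y ∂μ := fun i _ =>
    integral_iterate hf h i hg
  rw [Finset.sum_congr rfl this, Finset.sum_const, Finset.card_range, nsmul_eq_mul]
  field_simp

/-- **An orbit which imitates an invariant measure.** -/
theorem exists_imitation (hf : Continuous f) (hsh : AverageShadowing f)
    {μ : Measure X} [IsProbabilityMeasure μ] (hμ : μ.map f = μ) {ι : Type*} (F : Finset ι)
    (g : ι → X → ℝ) (hg : ∀ j ∈ F, Continuous (g j)) {η : ℝ} (hη : 0 < η) :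
    ∃ W : ℕ, 0 < W ∧ ∃ ν : ProbabilityMeasure X, (ν : Measure X).map f = ν ∧
      ∫ y, ∑ j ∈ F, |av f W (g j) y - ∫ w, g j w ∂μ| ∂(ν : Measure X) ≤ η := by
  obtain ⟨D, hD0, hD⟩ := exists_bound X
  obtain ⟨m, hm⟩ : ∃ m : ℝ, m = (F.card : ℝ) := ⟨_, rfl⟩
  have hm0 : 0 ≤ m := hm ▸ Nat.cast_nonneg _
  obtain ⟨ε, hε, hε1⟩ : ∃ ε : ℝ, 0 < ε ∧ m * (5 * ε) ≤ η := by
    refine ⟨η / (5 * (m + 1)), by positivity, ?_⟩
    rw [show m * (5 * (η / (5 * (m + 1)))) = m / (m + 1) * η by field_simp]
    have : m / (m + 1) ≤ 1 := by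
      rw [div_le_one (by positivity)]
      linarith
    nlinarith
  -- common constant
  obtain ⟨C, hC0, hC⟩ : ∃ C : ℝ, 0 ≤ C ∧ ∀ j ∈ F, ∀ a b : X,
      |g j a - g j b| ≤ ε + C * dist a b := by
    choose! c hc0 hc using fun j (hj : j ∈ F) => almost_lip (hg j hj) hε
    refine ⟨∑ j ∈ F, |c j|, Finset.sum_nonneg fun j _ => abs_nonneg _, fun j hj a b => ?_⟩
    refine (hc j hj a b).trans ?_
    have : c j ≤ ∑ j ∈ F, |c j| := (le_abs_self _).trans
      (Finset.single_le_sum (f := fun j => |c j|) (fun j _ => abs_nonneg _) hj)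
    have := mul_le_mul_of_nonneg_right this (dist_nonneg (x := a) (y := b))
    linarith
  obtain ⟨δ, hδ, h⟩ := hsh (ε / (C + 1)) (by positivity)
  obtain ⟨n, hn⟩ := exists_nat_gt (2 * D / δ)
  have hn0 : (0 : ℝ) < n := lt_of_le_of_lt (by positivity) hn
  have hnN : 0 < n := by exact_mod_cast hn0
  rw [div_lt_iff₀ hδ] at hn
  -- the samples
  set v : ι → X → ℝ := fun j y => av f n (g j) y - ∫ w, g j w ∂μ with hv
  have hvc : ∀ j ∈ F, Continuous (v j) := fun j hj => (av_cont hf n (hg j hj)).sub continuous_const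
  have hv0 : ∀ j ∈ F, ∫ y, v j y ∂μ = 0 := by
    intro j hj
    rw [hv]
    simp only
    rw [integral_sub (cont_int (av_cont hf n (hg j hj))) (integrable_const _),
      av_integral hf hnN (hg j hj) hμ]
    simp
  obtain ⟨B, hB⟩ : ∃ B : ℝ, ∀ y, ∑ j ∈ F, v j y ^ 2 ≤ B := by
    have hc : Continuous fun y => ∑ j ∈ F, v j y ^ 2 :=
      continuous_finsetSum _ fun j hj => (hvc j hj).pow 2
    obtain ⟨B, hB⟩ := isCompact_univ.exists_bound_of_continuousOn hc.continuousOn
    exact ⟨B, fun y => (le_abs_self _).trans (hB y (Set.mem_univ y))⟩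
  obtain ⟨L, hL⟩ := exists_nat_gt (max 1 (B / ε ^ 2))
  have hL1 : (1 : ℝ) < L := lt_of_le_of_lt (le_max_left _ _) hL
  have hL2 : B / ε ^ 2 < L := lt_of_le_of_lt (le_max_right _ _) hL
  have hL0 : (0 : ℝ) < L := by linarith
  have hLN : 0 < L := by exact_mod_cast hL0
  rw [div_lt_iff₀ (by positivity)] at hL2
  obtain ⟨y, hy⟩ := exists_samples F v hvc hv0 hB L
  have hys : ∀ j ∈ F, |∑ l ∈ range L, v j (y l)| ≤ ε * L := by
    intro j hj
    have h1 : (∑ l ∈ range L, v j (y l)) ^ 2 ≤ B * L :=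
      (Finset.single_le_sum (f := fun j => (∑ l ∈ range L, v j (y l)) ^ 2)
        (fun j _ => sq_nonneg _) hj).trans hy
    refine abs_le_of_sq_le_sq ?_ (by positivity)
    nlinarith
  -- the pseudo-orbit
  set W : ℕ := n * L with hW
  have hWN : 0 < W := Nat.mul_pos hnN hLN
  have hW0 : (0 : ℝ) < W := by exact_mod_cast hWN
  set x : ℕ → X := cat f n (fun l => y (l % L)) with hx
  have hper : ∀ i, x (i + W) = x i := by
    intro i
    rw [hx, hW]
    unfold cat
    rw [Nat.add_mul_mod_self_left, Nat.add_mul_div_left _ _ hnN]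
    simp only [Nat.add_mod_right]
  obtain ⟨z, hz⟩ := h x (cat_pseudo (f := f) hD0 hD hnN (by linarith) _)
  have hzs := shadow_sum hD hz
  obtain ⟨ν, hν2, hν3⟩ := exists_invariant hf z
  refine ⟨W, hWN, ν, hν2, ?_⟩
  refine hν3 _ (continuous_finsetSum _ fun j hj =>
    ((av_cont hf W (hg j hj)).sub continuous_const).abs) η ?_
  -- the sum of a function over one period
  have hsum : ∀ j ∈ F, ∀ i, |∑ r ∈ range W, g j (x (i + r)) - W * ∫ w, g j w ∂μ| ≤ W * ε := by
    intro j hj i
    have e1 : ∑ r ∈ range W, g j (x (i + r)) = ∑ r ∈ range W, g j (x r) :=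
      sum_periodic (h := fun r => g j (x r)) (fun i => by simp only [hper]) i
    have e2 : ∑ r ∈ range W, g j (x r) = ∑ l ∈ range L, ∑ r ∈ range n, g j (f^[r] (y l)) := by
      rw [hW, sum_pieces (h := fun r => g j (x r))]
      refine Finset.sum_congr rfl fun l hl => Finset.sum_congr rfl fun r hr => ?_
      rw [Finset.mem_range] at hl hr
      rw [hx]
      unfold cat
      rw [Nat.mul_add_mod, Nat.mod_eq_of_lt hr, Nat.mul_add_div hnN, Nat.div_eq_of_lt hr,
        add_zero]
      simp only [Nat.mod_eq_of_lt hl]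
    have e3 : ∑ l ∈ range L, ∑ r ∈ range n, g j (f^[r] (y l)) - W * ∫ w, g j w ∂μ =
        n * ∑ l ∈ range L, v j (y l) := by
      rw [hv, hW]
      simp only [av]
      rw [Finset.sum_sub_distrib, Finset.sum_const, Finset.card_range, nsmul_eq_mul, mul_sub,
        Finset.mul_sum]
      have : ∀ l, (n : ℝ) * ((∑ r ∈ range n, g j (f^[r] (y l))) / n) =
          ∑ r ∈ range n, g j (f^[r] (y l)) := fun l => by field_simp
      simp_rw [this]
      push_cast
      ring
    rw [e1, e2, e3, abs_mul, abs_of_pos hn0, hW]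
    push_cast
    have := mul_le_mul_of_nonneg_left (hys j hj) hn0.le
    linarith
  filter_upwards [eventually_ge_atTop W, (tendsto_add_atTop_nat W).eventually hzs] with N hNW hN
  have hN0 : (0 : ℝ) < N := lt_of_lt_of_le hW0 (by exact_mod_cast hNW)
  rw [div_le_iff₀ hN0, Finset.sum_comm]
  have hNW2 : ((N + W : ℕ) : ℝ) ≤ 2 * N := by
    have : N + W ≤ 2 * N := by omega
    exact_mod_cast this
  have each : ∀ j ∈ F, ∑ i ∈ range N, |av f W (g j) (f^[i] z) - ∫ w, g j w ∂μ| ≤ 5 * ε * N := by
    intro j hj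
    set b : ℕ → ℝ := fun i => |g j (f^[i] z) - g j (x i)| with hb
    have p1 : ∀ i, |av f W (g j) (f^[i] z) - ∫ w, g j w ∂μ| ≤
        (∑ r ∈ range W, b (i + r)) / W + ε := by
      intro i
      have q1 : W * (av f W (g j) (f^[i] z) - ∫ w, g j w ∂μ) =
          ∑ r ∈ range W, (g j (f^[i + r] z) - g j (x (i + r))) +
            (∑ r ∈ range W, g j (x (i + r)) - W * ∫ w, g j w ∂μ) := by
        unfold av
        rw [Finset.sum_sub_distrib]
        have : ∀ r, f^[r] (f^[i] z) = f^[i + r] z := fun r => by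
          rw [← Function.iterate_add_apply, add_comm]
        simp_rw [this]
        field_simp
        ring
      have q2 : W * |av f W (g j) (f^[i] z) - ∫ w, g j w ∂μ| ≤
          ∑ r ∈ range W, b (i + r) + W * ε := by
        rw [← abs_of_pos hW0, ← abs_mul, abs_of_pos hW0, q1]
        refine (abs_add_le _ _).trans (add_le_add ?_ (hsum j hj i))
        exact Finset.abs_sum_le_sum_abs _ _
      have q3 : (∑ r ∈ range W, b (i + r)) / W + ε = (∑ r ∈ range W, b (i + r) + W * ε) / W := by
        field_simp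
      rw [q3, le_div_iff₀ hW0, mul_comm]
      exact q2
    have p2 : ∑ i ∈ range N, |av f W (g j) (f^[i] z) - ∫ w, g j w ∂μ| ≤
        (∑ i ∈ range N, ∑ r ∈ range W, b (i + r)) / W + ε * N := by
      refine (Finset.sum_le_sum fun i _ => p1 i).trans (le_of_eq ?_)
      rw [Finset.sum_add_distrib, ← Finset.sum_div, Finset.sum_const, Finset.card_range,
        nsmul_eq_mul, mul_comm (N : ℝ)]
    have p3 : (∑ i ∈ range N, ∑ r ∈ range W, b (i + r)) / W ≤ ∑ i ∈ range (N + W), b i := by
      rw [div_le_iff₀ hW0, mul_comm]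
      exact sum_shift (b := b) (fun i => abs_nonneg _) N W
    have p4 : ∑ i ∈ range (N + W), b i ≤ ε * ((N + W : ℕ) : ℝ) +
        C * ∑ i ∈ range (N + W), dist (f^[i] z) (x i) := by
      have : ∀ i ∈ range (N + W), b i ≤ ε + C * dist (f^[i] z) (x i) := fun i _ =>
        hC j hj _ _
      refine (Finset.sum_le_sum this).trans (le_of_eq ?_)
      rw [Finset.sum_add_distrib, Finset.sum_const, Finset.card_range, nsmul_eq_mul,
        ← Finset.mul_sum, mul_comm (((N + W : ℕ) : ℝ))]
    have p5 : C * ∑ i ∈ range (N + W), dist (f^[i] z) (x i) ≤ ε * ((N + W : ℕ) : ℝ) := by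
      have q := mul_le_mul_of_nonneg_left hN hC0
      have q2 : C * (ε / (C + 1) * ((N + W : ℕ) : ℝ)) =
          C / (C + 1) * (ε * ((N + W : ℕ) : ℝ)) := by ring
      have q3 : C / (C + 1) ≤ 1 := by
        rw [div_le_one (by positivity)]
        linarith
      have q4 : 0 ≤ ε * ((N + W : ℕ) : ℝ) := by positivity
      have q5 := mul_le_mul_of_nonneg_right q3 q4
      linarith
    have p6 : ε * ((N + W : ℕ) : ℝ) ≤ ε * (2 * N) := mul_le_mul_of_nonneg_left hNW2 hε.le
    linarith
  refine (Finset.sum_le_sum each).trans ?_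
  rw [Finset.sum_const, nsmul_eq_mul, ← hm]
  have := mul_le_mul_of_nonneg_right hε1 hN0.le
  linarith

end

end Pool.Agent.Lib.MP_883b72_an.AS
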