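import Pool.Agent.Lib.MP_883b72_an.AS.Ext

/-! # Average shadowing: countably many ergodic measures -/

namespace Pool.Agent.Lib.MP_883b72_an.AS

open Filter Topology Finset MeasureTheory
open scoped ENNReal

universe u

section

variable {X : Type u} [MetricSpace X] [CompactSpace X] [MeasurableSpace X] [BorelSpace X]
  {f : X → X}

/-- Half of the sum of two invariant measures which are not equal is not ergodic. -/
theorem not_ergodic_mid {μ μ1 μ2 : ProbabilityMeasure X} (h1 : μ1 ∈ Inv f)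
    (hf : Continuous f) (he : Ergodic f (μ : Measure X))
    (h : ∀ g : BoundedContinuousFunction X ℝ, 2 * ∫ y, g y ∂(μ : Measure X) =
      ∫ y, g y ∂(μ1 : Measure X) + ∫ y, g y ∂(μ2 : Measure X)) : μ1 = μ2 := by
  have e : (μ : Measure X) = (2⁻¹ : ℝ≥0∞) • (μ1 : Measure X) + (2⁻¹ : ℝ≥0∞) • (μ2 : Measure X) := by
    have i1 : IsFiniteMeasure ((2⁻¹ : ℝ≥0∞) • (μ1 : Measure X)) :=
      Measure.smul_finite _ (by simp)
    have i2 : IsFiniteMeasure ((2⁻¹ : ℝ≥0∞) • (μ2 : Measure X)) :=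
      Measure.smul_finite _ (by simp)
    refine ext_of_forall_integral_eq_of_IsFiniteMeasure fun g => ?_
    rw [integral_comb (by simp) (by simp) g.continuous]
    have := h g
    simp only [ENNReal.toReal_inv, ENNReal.toReal_ofNat]
    linarith
  have ac : (μ1 : Measure X) ≪ (μ : Measure X) := by
    rw [e]
    exact (Measure.absolutelyContinuous_smul (by simp)).trans
      (Measure.AbsolutelyContinuous.add_right Measure.AbsolutelyContinuous.rfl _)
  have k1 : (μ1 : Measure X) = μ := he.eq_of_absolutelyContinuous ⟨hf.measurable, h1⟩ ac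
  refine ext_prob fun g => ?_
  have := h g
  rw [k1] at this ⊢
  linarith

/-- Convex combinations of two invariant measures. -/
theorem exists_comb (hf : Continuous f) {μ ν : ProbabilityMeasure X} (hμ : μ ∈ Inv f)
    (hν : ν ∈ Inv f) {t : ℝ} (t0 : 0 ≤ t) (t1 : t ≤ 1) :
    ∃ ρ : ProbabilityMeasure X, ρ ∈ Inv f ∧ ∀ g : BoundedContinuousFunction X ℝ,
      ∫ y, g y ∂(ρ : Measure X) = (1 - t) * ∫ y, g y ∂(μ : Measure X) +
        t * ∫ y, g y ∂(ν : Measure X) := by
  have hp : IsProbabilityMeasure (ENNReal.ofReal (1 - t) • (μ : Measure X) +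
      ENNReal.ofReal t • (ν : Measure X)) := by
    constructor
    simp only [Measure.add_apply, Measure.smul_apply, measure_univ, smul_eq_mul, mul_one]
    rw [← ENNReal.ofReal_add (by linarith) t0]
    simp
  have hi : ∀ g : BoundedContinuousFunction X ℝ,
      ∫ y, g y ∂(ENNReal.ofReal (1 - t) • (μ : Measure X) + ENNReal.ofReal t • (ν : Measure X)) =
        (1 - t) * ∫ y, g y ∂(μ : Measure X) + t * ∫ y, g y ∂(ν : Measure X) := by
    intro g
    rw [integral_comb ENNReal.ofReal_ne_top ENNReal.ofReal_ne_top g.continuous,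
      ENNReal.toReal_ofReal (by linarith), ENNReal.toReal_ofReal t0]
  refine ⟨⟨_, hp⟩, ?_, hi⟩
  rw [mem_inv_iff hf]
  intro g
  have a := hi g
  have b := hi (BoundedContinuousFunction.mkOfCompact ⟨fun y => g (f y), g.continuous.comp hf⟩)
  have c := (mem_inv_iff hf μ).1 hμ g
  have d := (mem_inv_iff hf ν).1 hν g
  refine Eq.trans b (Eq.trans ?_ a.symm)
  change (1 - t) * ∫ y, g (f y) ∂(μ : Measure X) + t * ∫ y, g (f y) ∂(ν : Measure X) = _
  rw [c, d]

/-- An invariant measure which is not half of the sum of two others is ergodic. -/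
theorem ergodic_of_mid (hf : Continuous f) {ρ : ProbabilityMeasure X} (hρ : ρ ∈ Inv f)
    (h : ∀ σ1 σ2 : ProbabilityMeasure X, σ1 ∈ Inv f → σ2 ∈ Inv f →
      (∀ g : BoundedContinuousFunction X ℝ, 2 * ∫ y, g y ∂(ρ : Measure X) =
        ∫ y, g y ∂(σ1 : Measure X) + ∫ y, g y ∂(σ2 : Measure X)) → σ1 = σ2) :
    Ergodic f (ρ : Measure X) := by
  refine Ergodic.of_mem_extremePoints ⟨⟨⟨hf.measurable, hρ⟩, ρ.prop⟩, ?_⟩
  rintro μ1 ⟨p1, q1⟩ μ2 ⟨p2, q2⟩ ⟨a, b, ha, hb, hab, hs⟩
  have ha' : a ≠ ∞ := fun h => by simp [h] at hab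
  have hb' : b ≠ ∞ := fun h => by simp [h] at hab
  have hab' : a.toReal + b.toReal = 1 := by
    rw [← ENNReal.toReal_add ha' hb', hab, ENNReal.toReal_one]
  have ha0 : 0 < a.toReal := ENNReal.toReal_pos ha.ne' ha'
  have hb0 : 0 < b.toReal := ENNReal.toReal_pos hb.ne' hb'
  have hc : ∀ g : BoundedContinuousFunction X ℝ, ∫ y, g y ∂(ρ : Measure X) =
      a.toReal * ∫ y, g y ∂μ1 + b.toReal * ∫ y, g y ∂μ2 := by
    intro g
    rw [← hs]
    exact integral_comb ha' hb' g.continuous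
  set M1 : ProbabilityMeasure X := ⟨μ1, q1⟩ with hM1
  set M2 : ProbabilityMeasure X := ⟨μ2, q2⟩ with hM2
  have m1 : M1 ∈ Inv f := p1.map_eq
  have m2 : M2 ∈ Inv f := p2.map_eq
  obtain ⟨c, c0, ca, cb⟩ : ∃ c : ℝ, 0 < c ∧ c ≤ a.toReal ∧ c ≤ b.toReal :=
    ⟨min a.toReal b.toReal, lt_min ha0 hb0, min_le_left _ _, min_le_right _ _⟩
  obtain ⟨σ1, r1, s1⟩ := exists_comb hf m1 m2 (t := b.toReal - c) (by linarith) (by linarith)
  obtain ⟨σ2, r2, s2⟩ := exists_comb hf m1 m2 (t := b.toReal + c) (by linarith) (by linarith)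
  have e := h σ1 σ2 r1 r2 (fun g => by
    rw [hc g, s1 g, s2 g]
    change 2 * (a.toReal * ∫ y, g y ∂μ1 + b.toReal * ∫ y, g y ∂μ2) =
      (1 - (b.toReal - c)) * ∫ y, g y ∂μ1 + (b.toReal - c) * ∫ y, g y ∂μ2 +
        ((1 - (b.toReal + c)) * ∫ y, g y ∂μ1 + (b.toReal + c) * ∫ y, g y ∂μ2)
    linear_combination 2 * (∫ y, g y ∂μ1) * hab')
  have e1 : M1 = ρ := by
    refine ext_prob fun g => ?_
    have a1 := s1 g
    have a2 := s2 g
    rw [e, a2] at a1
    have a3 : 2 * c * (∫ y, g y ∂(M1 : Measure X) - ∫ y, g y ∂(M2 : Measure X)) = 0 := by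
      linarith
    have a4 : ∫ y, g y ∂(M1 : Measure X) = ∫ y, g y ∂(M2 : Measure X) := by
      rcases mul_eq_zero.1 a3 with h1 | h1
      · linarith
      · linarith
    have a5 := hc g
    change ∫ y, g y ∂μ1 = ∫ y, g y ∂μ2 at a4
    change ∫ y, g y ∂μ1 = _
    rw [a5, ← a4, ← add_mul, hab', one_mul]
  exact congrArg Subtype.val e1

/-- No invariant measure is isolated if there are two of them. -/
theorem not_isolated (hf : Continuous f) {μ ν : ProbabilityMeasure X} (hμ : μ ∈ Inv f)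
    (hν : ν ∈ Inv f) (hne : μ ≠ ν) {O : Set (ProbabilityMeasure X)} (hO : IsOpen O)
    (hμO : μ ∈ O) : ∃ ρ ∈ O, ρ ∈ Inv f ∧ ρ ≠ μ := by
  have key : ∀ n : ℕ, ∃ ρ : ProbabilityMeasure X, ρ ∈ Inv f ∧
      ∀ g : BoundedContinuousFunction X ℝ, ∫ y, g y ∂(ρ : Measure X) =
        (1 - 1 / ((n : ℝ) + 1)) * ∫ y, g y ∂(μ : Measure X) +
          1 / ((n : ℝ) + 1) * ∫ y, g y ∂(ν : Measure X) := by
    intro n
    refine exists_comb hf hμ hν (by positivity) ?_
    rw [div_le_one (by positivity)]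
    have : (0 : ℝ) ≤ n := Nat.cast_nonneg n
    linarith
  choose ρ hρ h using key
  have ht : Tendsto ρ atTop (𝓝 μ) := by
    rw [ProbabilityMeasure.tendsto_iff_forall_integral_tendsto]
    intro g
    simp_rw [h]
    have z : Tendsto (fun n : ℕ => 1 / ((n : ℝ) + 1)) atTop (𝓝 0) :=
      tendsto_one_div_add_atTop_nhds_zero_nat
    have := ((tendsto_const_nhds (x := (1 : ℝ))).sub z).mul_const (∫ y, g y ∂(μ : Measure X))
    have w := z.mul_const (∫ y, g y ∂(ν : Measure X))
    simpa using this.add w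
  obtain ⟨n, hn⟩ := (ht.eventually (hO.mem_nhds hμO)).exists
  refine ⟨ρ n, hn, hρ n, fun h0 => hne ?_⟩
  refine ext_prob fun g => ?_
  have a := h n g
  rw [h0] at a
  have b : 1 / ((n : ℝ) + 1) * (∫ y, g y ∂(μ : Measure X) - ∫ y, g y ∂(ν : Measure X)) = 0 := by
    linarith
  rcases mul_eq_zero.1 b with c | c
  · have : (0 : ℝ) < 1 / ((n : ℝ) + 1) := by positivity
    exact absurd c this.ne'
  · linarith

/-- If there are only countably many ergodic measures, there is only one invariant measure. -/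
theorem unique_of_countable (hf : Continuous f) (hsh : AverageShadowing f)
    (hc : {ν : ProbabilityMeasure X | Ergodic f (ν : Measure X)}.Countable)
    {μ ν : ProbabilityMeasure X} (hμ : μ ∈ Inv f) (hν : ν ∈ Inv f) : μ = ν := by
  by_contra hne
  let _ : MetricSpace (ProbabilityMeasure X) := TopologicalSpace.metrizableSpaceMetric _
  set E : Set (ProbabilityMeasure X) := {ν | Ergodic f (ν : Measure X)} with hE
  have hEI : ∀ e ∈ E, e ∈ Inv f := fun e he => he.toMeasurePreserving.map_eq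
  have : CompactSpace (Inv f) := isCompact_iff_compactSpace.1 (inv_compact hf)
  have : Nonempty (Inv f) := ⟨⟨μ, hμ⟩⟩
  have : Countable E := hc
  -- the closed sets
  set F : ℕ → Set (ProbabilityMeasure X) := fun k =>
    {ρ | ∃ p : ProbabilityMeasure X × ProbabilityMeasure X,
      (p.1 ∈ Inv f ∧ p.2 ∈ Inv f ∧ 1 / ((k : ℝ) + 1) ≤ dist p.1 p.2) ∧
      ∀ g : BoundedContinuousFunction X ℝ, 2 * ∫ y, g y ∂(ρ : Measure X) =
        ∫ y, g y ∂(p.1 : Measure X) + ∫ y, g y ∂(p.2 : Measure X)} with hF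
  have hFc : ∀ k, IsClosed (F k) := by
    intro k
    set S : Set (ProbabilityMeasure X × (ProbabilityMeasure X × ProbabilityMeasure X)) :=
      {q | (q.2.1 ∈ Inv f ∧ q.2.2 ∈ Inv f ∧ 1 / ((k : ℝ) + 1) ≤ dist q.2.1 q.2.2) ∧
        ∀ g : BoundedContinuousFunction X ℝ, 2 * ∫ y, g y ∂(q.1 : Measure X) =
          ∫ y, g y ∂(q.2.1 : Measure X) + ∫ y, g y ∂(q.2.2 : Measure X)} with hS
    have hSc : IsClosed S := by
      have c1 : Continuous fun q : ProbabilityMeasure X ×
          (ProbabilityMeasure X × ProbabilityMeasure X) => q.2.1 := by fun_prop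
      have c2 : Continuous fun q : ProbabilityMeasure X ×
          (ProbabilityMeasure X × ProbabilityMeasure X) => q.2.2 := by fun_prop
      have s1 : IsClosed {q : ProbabilityMeasure X ×
          (ProbabilityMeasure X × ProbabilityMeasure X) | q.2.1 ∈ Inv f} :=
        (inv_closed hf).preimage c1
      have s2 : IsClosed {q : ProbabilityMeasure X ×
          (ProbabilityMeasure X × ProbabilityMeasure X) | q.2.2 ∈ Inv f} :=
        (inv_closed hf).preimage c2
      have s3 : IsClosed {q : ProbabilityMeasure X ×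
          (ProbabilityMeasure X × ProbabilityMeasure X) |
            1 / ((k : ℝ) + 1) ≤ dist q.2.1 q.2.2} :=
        isClosed_le continuous_const (c1.dist c2)
      have s4 : IsClosed {q : ProbabilityMeasure X ×
          (ProbabilityMeasure X × ProbabilityMeasure X) |
            ∀ g : BoundedContinuousFunction X ℝ, 2 * ∫ y, g y ∂(q.1 : Measure X) =
              ∫ y, g y ∂(q.2.1 : Measure X) + ∫ y, g y ∂(q.2.2 : Measure X)} := by
        have e : {q : ProbabilityMeasure X × (ProbabilityMeasure X × ProbabilityMeasure X) |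
            ∀ g : BoundedContinuousFunction X ℝ, 2 * ∫ y, g y ∂(q.1 : Measure X) =
              ∫ y, g y ∂(q.2.1 : Measure X) + ∫ y, g y ∂(q.2.2 : Measure X)} =
            ⋂ g : BoundedContinuousFunction X ℝ, {q | 2 * ∫ y, g y ∂(q.1 : Measure X) =
              ∫ y, g y ∂(q.2.1 : Measure X) + ∫ y, g y ∂(q.2.2 : Measure X)} := by
          ext q
          simp
        rw [e]
        refine isClosed_iInter fun g => isClosed_eq ?_ ?_
        · exact continuous_const.mul ((cont_integral g).comp continuous_fst)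
        · exact ((cont_integral g).comp c1).add ((cont_integral g).comp c2)
      exact (s1.inter (s2.inter s3)).inter s4
    have e : F k = Prod.fst '' S := by
      ext ρ
      constructor
      · rintro ⟨p, h⟩
        exact ⟨(ρ, p), h, rfl⟩
      · rintro ⟨⟨ρ', p⟩, h, rfl⟩
        exact ⟨p, h⟩
    rw [e]
    exact (hSc.isCompact.image continuous_fst).isClosed
  -- the cover
  have hcov : ⋃ i : E ⊕ ℕ, (Sum.elim (fun e : E => {ρ : Inv f | (ρ : ProbabilityMeasure X) = e})
      (fun k => {ρ : Inv f | (ρ : ProbabilityMeasure X) ∈ F k}) i) = Set.univ := by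
    refine Set.eq_univ_of_forall fun ρ => Set.mem_iUnion.2 ?_
    obtain ⟨ρ, hρ⟩ := ρ
    by_cases he : Ergodic f (ρ : Measure X)
    · exact ⟨Sum.inl ⟨ρ, he⟩, rfl⟩
    · -- two different halves
      have h1 : ∃ σ1 σ2 : ProbabilityMeasure X, σ1 ∈ Inv f ∧ σ2 ∈ Inv f ∧
          (∀ g : BoundedContinuousFunction X ℝ, 2 * ∫ y, g y ∂(ρ : Measure X) =
            ∫ y, g y ∂(σ1 : Measure X) + ∫ y, g y ∂(σ2 : Measure X)) ∧ σ1 ≠ σ2 := by
        by_contra hcon
        push Not at hcon
        exact he (ergodic_of_mid hf hρ hcon)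
      obtain ⟨σ1, σ2, r1, r2, r3, r4⟩ := h1
      obtain ⟨k, hk⟩ := exists_nat_one_div_lt (dist_pos.2 r4)
      exact ⟨Sum.inr k, ⟨(σ1, σ2), ⟨r1, r2, hk.le⟩, r3⟩⟩
  have hclosed : ∀ i : E ⊕ ℕ, IsClosed (Sum.elim
      (fun e : E => {ρ : Inv f | (ρ : ProbabilityMeasure X) = e})
      (fun k => {ρ : Inv f | (ρ : ProbabilityMeasure X) ∈ F k}) i) := by
    rintro (e | k)
    · exact isClosed_eq continuous_subtype_val continuous_const
    · exact (hFc k).preimage continuous_subtype_val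
  obtain ⟨i, ρ, hρ⟩ := nonempty_interior_of_iUnion_of_closed hclosed hcov
  obtain ⟨V, hV, hVo, hρV⟩ := mem_interior.1 hρ
  obtain ⟨O, hO, hOV⟩ := isOpen_induced_iff.1 hVo
  have hρO : (ρ : ProbabilityMeasure X) ∈ O := by
    rw [← hOV] at hρV
    exact hρV
  have hsub : ∀ σ : ProbabilityMeasure X, ∀ hσ : σ ∈ Inv f, σ ∈ O → (⟨σ, hσ⟩ : Inv f) ∈ V := by
    intro σ hσ h1
    rw [← hOV]
    exact h1
  rcases i with e | k
  · -- the measure `e` is isolated
    have he : (ρ : ProbabilityMeasure X) = e := hV hρV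
    have hex : ∃ ν' : ProbabilityMeasure X, ν' ∈ Inv f ∧ (ρ : ProbabilityMeasure X) ≠ ν' := by
      by_cases h1 : (ρ : ProbabilityMeasure X) = μ
      · exact ⟨ν, hν, by rw [h1]; exact hne⟩
      · exact ⟨μ, hμ, h1⟩
    obtain ⟨ν', hν', hne'⟩ := hex
    obtain ⟨σ, h1, h2, h3⟩ := not_isolated hf ρ.prop hν' hne' hO hρO
    apply h3
    have : (σ : ProbabilityMeasure X) = e := hV (hsub σ h2 h1)
    rw [this, he]
  · -- an ergodic measure is half of the sum of two others
    obtain ⟨σ, h1, h2⟩ := mem_closure_iff.1 (ergodic_dense hf hsh ρ.prop) O hO hρO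
    have h3 : σ ∈ F k := hV (hsub σ (hEI σ h2) h1)
    obtain ⟨p, ⟨p1, p2, p3⟩, p4⟩ := h3
    have h4 := not_ergodic_mid p1 hf h2 p4
    rw [h4, dist_self] at p3
    have : (0 : ℝ) < 1 / ((k : ℝ) + 1) := by positivity
    linarith

/-- **Average shadowing with countably many ergodic measures.** -/
theorem countable_case (hf : Continuous f) (hsh : AverageShadowing f)
    (hc : {ν : Measure X | IsProbabilityMeasure ν ∧ Ergodic f ν}.Countable) [Nonempty X] :
    ∃ p : X, f p = p ∧ ∀ μ : Measure X, IsProbabilityMeasure μ → μ.map f = μ →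
      μ = Measure.dirac p := by
  obtain ⟨a⟩ := ‹Nonempty X›
  have hc' : {ν : ProbabilityMeasure X | Ergodic f (ν : Measure X)}.Countable := by
    refine (hc.preimage_of_injOn (f := fun ν : ProbabilityMeasure X => (ν : Measure X))
      (fun a _ b _ h => Subtype.ext h)).mono fun ν hν => ?_
    exact ⟨ν.prop, hν⟩
  obtain ⟨μ, hμ, -⟩ := exists_invariant hf a
  have huniq : ∀ ν : Measure X, IsProbabilityMeasure ν → ν.map f = ν → ν = μ := by
    intro ν h1 h2
    have := unique_of_countable hf hsh hc' (μ := ⟨ν, h1⟩) (ν := μ) h2 hμ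
    exact congrArg Subtype.val this
  have i1 : IsProbabilityMeasure (μ : Measure X) := μ.prop
  obtain ⟨p, hp, hd⟩ := unique_case hf hsh a (μ := (μ : Measure X)) hμ huniq
  exact ⟨p, hp, fun ν h1 h2 => (huniq ν h1 h2).trans hd⟩

end

end Pool.Agent.Lib.MP_883b72_an.AS
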