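import Pool.Agent.Lib.MP_883b72_an.AS.Defs

/-! # Periodic pseudo-orbits and measures carried by an orbit -/

namespace Pool.Agent.Lib.MP_883b72_an.AS

open Filter Topology Finset MeasureTheory

universe u

/-- The number of multiples of `N` in an interval. -/
theorem count_aux {N : ℕ} (hN : 0 < N) (k n : ℕ) :
    N * ((range n).filter (fun i => (i + k + 1) % N = 0)).card + (n + k) % N = n + k % N := by
  induction n with
  | zero => simp
  | succ n ih =>
    rw [Finset.range_add_one, Finset.filter_insert]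
    have e : n + 1 + k = n + k + 1 := by ring
    rw [e]
    have h0 : N * ((n + k) / N) + (n + k) % N = n + k := Nat.div_add_mod _ _
    have hr : (n + k) % N < N := Nat.mod_lt _ hN
    rcases Nat.lt_or_ge ((n + k) % N + 1) N with h | h
    · have h1 : (n + k + 1) % N = (n + k) % N + 1 := by
        conv_lhs => rw [← h0, add_assoc, Nat.mul_add_mod]
        exact Nat.mod_eq_of_lt h
      rw [if_neg (by omega), h1]
      omega
    · have h2 : (n + k) % N + 1 = N := by omega
      have h1 : (n + k + 1) % N = 0 := by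
        conv_lhs => rw [← h0, add_assoc, h2]
        simp
      rw [if_pos h1, Finset.card_insert_of_notMem (by simp), h1, mul_add]
      omega

/-- The next index is not a multiple of `N`. -/
theorem next_aux {N : ℕ} (hN : 0 < N) {m : ℕ} (h : ¬(m + 1) % N = 0) :
    (m + 1) % N = m % N + 1 ∧ (m + 1) / N = m / N := by
  have h0 : N * (m / N) + m % N = m := Nat.div_add_mod _ _
  have hr : m % N < N := Nat.mod_lt _ hN
  have h3 : m % N + 1 < N := by
    by_contra h3
    apply h
    have h4 : m % N + 1 = N := by omega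
    conv_lhs => rw [← h0, add_assoc, h4]
    simp
  have e : (m + 1) = N * (m / N) + (m % N + 1) := by omega
  constructor
  · conv_lhs => rw [e, Nat.mul_add_mod]
    exact Nat.mod_eq_of_lt h3
  · conv_lhs => rw [e, Nat.mul_add_div hN, Nat.div_eq_of_lt h3, add_zero]

section

variable {X : Type u} [MetricSpace X] {f : X → X}

/-- A bound for the metric. -/
theorem exists_bound (X : Type u) [MetricSpace X] [CompactSpace X] :
    ∃ D : ℝ, 0 < D ∧ ∀ a b : X, dist a b ≤ D := by
  obtain ⟨D, hD⟩ := Metric.isBounded_iff.1 (isCompact_univ (X := X)).isBounded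
  exact ⟨max D 1, by positivity, fun a b => (hD (Set.mem_univ a) (Set.mem_univ b)).trans
    (le_max_left _ _)⟩

/-- Pieces of orbits of length `N`, one after the other. -/
def cat (f : X → X) (N : ℕ) (y : ℕ → X) (i : ℕ) : X := f^[i % N] (y (i / N))

/-- Long pieces of orbits form an average pseudo-orbit. -/
theorem cat_pseudo {D δ : ℝ} (hD0 : 0 < D) (hD : ∀ a b : X, dist a b ≤ D) {N : ℕ}
    (hN : 0 < N) (h : 2 * D < δ * N) (y : ℕ → X) : IsAveragePseudoOrbit f δ (cat f N y) := by
  refine ⟨N, hN, fun n hn k => ?_⟩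
  have hN0 : (0 : ℝ) < N := by exact_mod_cast hN
  have hn0 : (0 : ℝ) < n := lt_of_lt_of_le hN0 (by exact_mod_cast hn)
  rw [div_lt_iff₀ hn0]
  have step : ∀ i ∈ range n, dist (f (cat f N y (i + k))) (cat f N y (i + k + 1)) ≤
      if (i + k + 1) % N = 0 then D else 0 := by
    intro i _
    split_ifs with h1
    · exact hD _ _
    · obtain ⟨h2, h3⟩ := next_aux hN h1
      unfold cat
      rw [h2, h3, Function.iterate_succ_apply', dist_self]
  have s1 : (∑ i ∈ range n, dist (f (cat f N y (i + k))) (cat f N y (i + k + 1))) ≤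
      D * ((range n).filter (fun i => (i + k + 1) % N = 0)).card := by
    refine (Finset.sum_le_sum step).trans (le_of_eq ?_)
    rw [Finset.sum_ite, Finset.sum_const_zero, add_zero, Finset.sum_const, nsmul_eq_mul, mul_comm]
  have s2 : (N : ℝ) * ((range n).filter (fun i => (i + k + 1) % N = 0)).card ≤ 2 * n := by
    have c := count_aux hN k n
    have hk : k % N < N := Nat.mod_lt _ hN
    have : N * ((range n).filter (fun i => (i + k + 1) % N = 0)).card ≤ 2 * n := by omega
    exact_mod_cast this
  have s3 : D * ((range n).filter (fun i => (i + k + 1) % N = 0)).card * N ≤ D * (2 * n) := by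
    rw [mul_assoc, mul_comm (_ : ℝ) (N : ℝ)]
    exact mul_le_mul_of_nonneg_left s2 hD0.le
  have s4 : D * (2 * n) < δ * n * N := by
    have := mul_lt_mul_of_pos_right h hn0
    linarith
  have s5 := lt_of_le_of_lt s3 s4
  exact lt_of_le_of_lt s1 (lt_of_mul_lt_mul_right s5 hN0.le)

/-- The sums of the distances to a shadowed sequence. -/
theorem shadow_sum {D ε : ℝ} (hD : ∀ a b : X, dist a b ≤ D) {x : ℕ → X} {z : X}
    (hz : ShadowsInAverage f ε x z) :
    ∀ᶠ n : ℕ in atTop, ∑ i ∈ range n, dist (f^[i] z) (x i) ≤ ε * n := by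
  unfold ShadowsInAverage at hz
  have hb : IsBoundedUnder (· ≤ ·) atTop
      (fun n : ℕ => (∑ i ∈ range n, dist (f^[i] z) (x i)) / n) := by
    refine isBoundedUnder_of ⟨D, fun n => ?_⟩
    rcases Nat.eq_zero_or_pos n with rfl | hn
    · simp only [Finset.range_zero, Finset.sum_empty, Nat.cast_zero, div_zero]
      exact dist_nonneg.trans (hD z z)
    · have hn0 : (0 : ℝ) < n := by exact_mod_cast hn
      rw [div_le_iff₀ hn0]
      calc (∑ i ∈ range n, dist (f^[i] z) (x i)) ≤ ∑ _i ∈ range n, D :=
            Finset.sum_le_sum fun i _ => hD _ _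
        _ = D * n := by rw [Finset.sum_const, nsmul_eq_mul, Finset.card_range, mul_comm]
  have h1 := eventually_lt_of_limsup_lt hz hb
  filter_upwards [h1, eventually_gt_atTop 0] with n h2 hn
  have hn0 : (0 : ℝ) < n := by exact_mod_cast hn
  rw [div_lt_iff₀ hn0] at h2
  exact h2.le

variable [MeasurableSpace X]

/-- The empirical measures. -/
noncomputable def emp (f : X → X) (z : X) (n : ℕ) : Measure X :=
  ((n : ENNReal) + 1)⁻¹ • ∑ i ∈ range (n + 1), Measure.dirac (f^[i] z)

omit [MetricSpace X] in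
theorem emp_prob (z : X) (n : ℕ) : IsProbabilityMeasure (emp f z n) := by
  constructor
  unfold emp
  simp only [Measure.smul_apply, Measure.coe_finsetSum, Finset.sum_apply, measure_univ,
    Finset.sum_const, Finset.card_range, smul_eq_mul, nsmul_eq_mul, mul_one]
  push_cast
  exact ENNReal.inv_mul_cancel (by positivity) (by finiteness)

omit [MetricSpace X] in
theorem integral_emp [MeasurableSingletonClass X] (z : X) (n : ℕ) (g : X → ℝ) :
    ∫ y, g y ∂(emp f z n) = (∑ i ∈ range (n + 1), g (f^[i] z)) / ((n + 1 : ℕ) : ℝ) := by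
  unfold emp
  rw [integral_smul_measure, integral_finsetSum_measure]
  · simp only [integral_dirac, smul_eq_mul]
    rw [div_eq_inv_mul]
    congr 1
    rw [ENNReal.toReal_inv, ENNReal.toReal_add (by finiteness) (by finiteness)]
    simp
  · intro i _
    exact integrable_dirac (by simp)

variable [CompactSpace X] [BorelSpace X]

/-- The orbit of `z` carries an invariant measure. -/
theorem exists_invariant (hf : Continuous f) (z : X) :
    ∃ μ : ProbabilityMeasure X, (μ : Measure X).map f = μ ∧
      ∀ g : X → ℝ, Continuous g → ∀ c : ℝ,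
        (∀ᶠ n : ℕ in atTop, (∑ i ∈ range n, g (f^[i] z)) / n ≤ c) →
          ∫ y, g y ∂(μ : Measure X) ≤ c := by
  let P : ℕ → ProbabilityMeasure X := fun n => ⟨emp f z n, emp_prob z n⟩
  let U : Ultrafilter (ProbabilityMeasure X) := Ultrafilter.map P (hyperfilter ℕ)
  obtain ⟨μ, -, hμ⟩ := isCompact_univ.ultrafilter_le_nhds U (by simp)
  have hT : Tendsto P (hyperfilter ℕ) (𝓝 μ) := hμ
  have hI : ∀ g : X → ℝ, Continuous g →
      Tendsto (fun n : ℕ => (∑ i ∈ range (n + 1), g (f^[i] z)) / ((n + 1 : ℕ) : ℝ))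
        (hyperfilter ℕ) (𝓝 (∫ y, g y ∂(μ : Measure X))) := by
    intro g hg
    have h1 := ProbabilityMeasure.tendsto_iff_forall_integral_tendsto.1 hT
      (BoundedContinuousFunction.mkOfCompact ⟨g, hg⟩)
    refine h1.congr fun n => ?_
    exact integral_emp z n g
  refine ⟨μ, ?_, ?_⟩
  · have : IsProbabilityMeasure ((μ : Measure X).map f) :=
      Measure.isProbabilityMeasure_map hf.measurable.aemeasurable
    refine ext_of_forall_integral_eq_of_IsFiniteMeasure fun g => ?_
    rw [integral_map hf.measurable.aemeasurable g.continuous.aestronglyMeasurable]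
    have h1 := hI g g.continuous
    have h2 := hI (fun y => g (f y)) (g.continuous.comp hf)
    have h3 : Tendsto (fun n : ℕ => (∑ i ∈ range (n + 1), g (f (f^[i] z))) / ((n + 1 : ℕ) : ℝ) -
        (∑ i ∈ range (n + 1), g (f^[i] z)) / ((n + 1 : ℕ) : ℝ)) atTop (𝓝 0) := by
      have e : ∀ n : ℕ, (∑ i ∈ range (n + 1), g (f (f^[i] z))) / ((n + 1 : ℕ) : ℝ) -
          (∑ i ∈ range (n + 1), g (f^[i] z)) / ((n + 1 : ℕ) : ℝ) =
          (g (f^[n + 1] z) - g z) / ((n + 1 : ℕ) : ℝ) := by
        intro n
        rw [← sub_div, ← Finset.sum_sub_distrib]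
        congr 1
        have := Finset.sum_range_sub (fun i => g (f^[i] z)) (n + 1)
        simp only [Function.iterate_succ_apply', Function.iterate_zero, id_eq] at this
        rw [Function.iterate_succ_apply']
        exact this
      simp_rw [e]
      have b : Tendsto (fun n : ℕ => (2 * ‖g‖) / ((n + 1 : ℕ) : ℝ)) atTop (𝓝 0) :=
        (tendsto_const_div_atTop_nhds_zero_nat (2 * ‖g‖)).comp (tendsto_add_atTop_nat 1)
      refine squeeze_zero_norm (fun n => ?_) b
      rw [norm_div, Real.norm_natCast]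
      gcongr
      calc ‖g (f^[n + 1] z) - g z‖ ≤ ‖g (f^[n + 1] z)‖ + ‖g z‖ := norm_sub_le _ _
        _ ≤ ‖g‖ + ‖g‖ := add_le_add (g.norm_coe_le_norm _) (g.norm_coe_le_norm _)
        _ = 2 * ‖g‖ := by ring
    have h4 := (h2.sub h1)
    have h5 := h3.mono_left Nat.hyperfilter_le_atTop
    have := tendsto_nhds_unique h4 h5
    linarith
  · intro g hg c hc
    have h1 := hI g hg
    obtain ⟨n0, hn0⟩ := eventually_atTop.1 hc
    have h2 : ∀ᶠ n : ℕ in atTop,
        (∑ i ∈ range (n + 1), g (f^[i] z)) / ((n + 1 : ℕ) : ℝ) ≤ c :=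
      eventually_atTop.2 ⟨n0, fun n hn => hn0 (n + 1) (by omega)⟩
    exact le_of_tendsto h1 (Nat.hyperfilter_le_atTop h2)

/-- Powers of the map preserve the measure too. -/
theorem integral_iterate (hf : Continuous f) {μ : Measure X} (h : μ.map f = μ) (N : ℕ)
    {g : X → ℝ} (hg : Continuous g) : ∫ y, g (f^[N] y) ∂μ = ∫ y, g y ∂μ := by
  have hmp : MeasurePreserving f μ μ := ⟨hf.measurable, h⟩
  have hmpN := hmp.iterate N
  conv_rhs => rw [← hmpN.map_eq]
  rw [integral_map hmpN.measurable.aemeasurable hg.aestronglyMeasurable]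

/-- Continuous functions are integrable. -/
theorem cont_int {μ : Measure X} [IsFiniteMeasure μ] {g : X → ℝ} (hg : Continuous g) :
    Integrable g μ :=
  (BoundedContinuousFunction.mkOfCompact ⟨g, hg⟩).integrable μ

/-- **The uniquely ergodic case.** -/
theorem unique_case (hf : Continuous f) (hsh : AverageShadowing f) (a : X)
    {μ : Measure X} [IsProbabilityMeasure μ] (hμ : μ.map f = μ)
    (huniq : ∀ ν : Measure X, IsProbabilityMeasure ν → ν.map f = ν → ν = μ) :
    ∃ p : X, f p = p ∧ μ = Measure.dirac p := by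
  obtain ⟨D, hD0, hD⟩ := exists_bound X
  -- the return integrals
  have key : ∀ ε : ℝ, 0 < ε → ∃ N0 : ℕ, ∀ N, N0 ≤ N →
      ∫ y, dist y (f^[N] y) ∂μ ≤ 3 * ε := by
    intro ε hε
    obtain ⟨δ, hδ, h⟩ := hsh ε hε
    obtain ⟨N0, hN0⟩ := exists_nat_gt (2 * D / δ)
    refine ⟨N0 + 1, fun N hN => ?_⟩
    have hN1 : 0 < N := by omega
    have hN2 : 2 * D < δ * N := by
      rw [div_lt_iff₀ hδ] at hN0
      have : (N0 : ℝ) ≤ N := by exact_mod_cast (by omega : N0 ≤ N)
      nlinarith
    obtain ⟨z, hz⟩ := h _ (cat_pseudo (f := f) hD0 hD hN1 hN2 (fun _ => a))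
    obtain ⟨ν, hν2, hν3⟩ := exists_invariant hf z
    have e : (ν : Measure X) = μ := huniq ν ν.prop hν2
    rw [← e]
    refine hν3 (fun y => dist y (f^[N] y)) (continuous_id.dist (hf.iterate N)) _ ?_
    obtain ⟨n0, h2⟩ := eventually_atTop.1 (shadow_sum hD hz)
    refine eventually_atTop.2 ⟨max n0 N, fun n hn => ?_⟩
    have hn1 : n0 ≤ n := le_trans (le_max_left _ _) hn
    have hn2 : N ≤ n := le_trans (le_max_right _ _) hn
    have hn0 : (0 : ℝ) < n := by exact_mod_cast lt_of_lt_of_le hN1 hn2
    have a1 := h2 n hn1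
    have a2 := h2 (n + N) (by omega)
    rw [div_le_iff₀ hn0]
    have t : ∀ i ∈ range n, dist (f^[i] z) (f^[N] (f^[i] z)) ≤
        dist (f^[i] z) (cat f N (fun _ => a) i) +
          dist (f^[N + i] z) (cat f N (fun _ => a) (N + i)) := by
      intro i _
      have e1 : cat f N (fun _ => a) (N + i) = cat f N (fun _ => a) i := by
        unfold cat
        rw [Nat.add_mod_left]
      rw [e1, ← Function.iterate_add_apply]
      exact dist_triangle_right (f^[i] z) (f^[N + i] z) (cat f N (fun _ => a) i)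
    have s1 := Finset.sum_le_sum t
    rw [Finset.sum_add_distrib] at s1
    have s2 : ∑ i ∈ range n, dist (f^[N + i] z) (cat f N (fun _ => a) (N + i)) ≤
        ∑ i ∈ range (n + N), dist (f^[i] z) (cat f N (fun _ => a) i) := by
      rw [add_comm n N, Finset.sum_range_add]
      have : 0 ≤ ∑ i ∈ range N, dist (f^[i] z) (cat f N (fun _ => a) i) :=
        Finset.sum_nonneg fun i _ => dist_nonneg
      linarith
    have s3 : ε * ((n + N : ℕ) : ℝ) ≤ ε * (2 * n) := by
      refine mul_le_mul_of_nonneg_left ?_ hε.le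
      have : n + N ≤ 2 * n := by omega
      exact_mod_cast this
    linarith
  have hint : ∀ N : ℕ, Integrable (fun y => dist y (f^[N] y)) μ := fun N =>
    cont_int (continuous_id.dist (hf.iterate N))
  have hz : ∫ y, dist y (f y) ∂μ = 0 := by
    refine le_antisymm ?_ (integral_nonneg fun y => dist_nonneg)
    refine le_of_forall_pos_le_add fun ε hε => ?_
    obtain ⟨N, hN⟩ := key (ε / 6) (by positivity)
    have h1 := hN N le_rfl
    have h2 := hN (N + 1) (by omega)
    have h3 := integral_iterate (g := fun y => dist y (f y)) hf hμ N (continuous_id.dist hf)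
    rw [← h3]
    have h4 : ∫ y, dist (f^[N] y) (f (f^[N] y)) ∂μ ≤
        ∫ y, (dist y (f^[N] y) + dist y (f^[N + 1] y)) ∂μ := by
      refine integral_mono ?_ ((hint N).add (hint (N + 1))) fun y => ?_
      · exact cont_int ((hf.iterate N).dist (hf.comp (hf.iterate N)))
      · simp only [Function.iterate_succ_apply']
        exact dist_triangle_left _ _ _
    rw [integral_add (hint N) (hint (N + 1))] at h4
    linarith
  have hae : ∀ᵐ y ∂μ, dist y (f y) = 0 :=
    (integral_eq_zero_iff_of_nonneg (fun y => dist_nonneg) (cont_int (continuous_id.dist hf))).1 hz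
  obtain ⟨p, hp⟩ := hae.exists
  have hp1 : f p = p := (dist_eq_zero.1 hp).symm
  refine ⟨p, hp1, (huniq _ inferInstance ?_).symm⟩
  rw [Measure.map_dirac' hf.measurable, hp1]

end

end Pool.Agent.Lib.MP_883b72_an.AS
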