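import Mathlib

/-! # The average shadowing property: definitions -/

namespace Pool.Agent.Lib.MP_883b72_an.AS

open Filter Topology Finset

universe u

/-- `x` is a `δ`-average-pseudo-orbit of `f`. -/
def IsAveragePseudoOrbit {X : Type u} [MetricSpace X] (f : X → X) (δ : ℝ) (x : ℕ → X) : Prop :=
  ∃ N : ℕ, 0 < N ∧ ∀ n, N ≤ n → ∀ k,
    (∑ i ∈ range n, dist (f (x (i + k))) (x (i + k + 1))) / n < δ

/-- `x` is `ε`-shadowed in average by `y`. -/
def ShadowsInAverage {X : Type u} [MetricSpace X] (f : X → X) (ε : ℝ) (x : ℕ → X) (y : X) :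
    Prop :=
  limsup (fun n : ℕ => (∑ i ∈ range n, dist (f^[i] y) (x i)) / n) atTop < ε

/-- The average shadowing property. -/
def AverageShadowing {X : Type u} [MetricSpace X] (f : X → X) : Prop :=
  ∀ ε, 0 < ε → ∃ δ, 0 < δ ∧
    ∀ x : ℕ → X, IsAveragePseudoOrbit f δ x → ∃ y, ShadowsInAverage f ε x y

/-- `f` is minimal: the only nonempty closed set mapped into itself is the whole space. -/
def IsMinimalMap {X : Type u} [MetricSpace X] (f : X → X) : Prop :=
  ∀ K : Set X, IsClosed K → K.Nonempty → (∀ x ∈ K, f x ∈ K) → K = Set.univ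

end Pool.Agent.Lib.MP_883b72_an.AS
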