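import Pool.Agent.Lib.MP_883b72_an.AS.Approx

/-! # Average shadowing: the ergodic measures are dense -/

namespace Pool.Agent.Lib.MP_883b72_an.AS

open Filter Topology Finset MeasureTheory
open scoped ENNReal

universe u

section

variable {X : Type u} [MetricSpace X] [CompactSpace X] [MeasurableSpace X] [BorelSpace X]
  {f : X → X}

/-- The invariant probability measures. -/
def Inv (f : X → X) : Set (ProbabilityMeasure X) := {μ | (μ : Measure X).map f = μ}

/-- The integral of a bounded continuous function. -/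
theorem cont_integral (g : BoundedContinuousFunction X ℝ) :
    Continuous fun μ : ProbabilityMeasure X => ∫ y, g y ∂(μ : Measure X) :=
  ProbabilityMeasure.continuous_integral_boundedContinuousFunction g

theorem ext_prob {μ ν : ProbabilityMeasure X}
    (h : ∀ g : BoundedContinuousFunction X ℝ,
      ∫ y, g y ∂(μ : Measure X) = ∫ y, g y ∂(ν : Measure X)) : μ = ν := by
  have h1 : IsProbabilityMeasure (μ : Measure X) := μ.prop
  have h2 : IsProbabilityMeasure (ν : Measure X) := ν.prop
  have : (μ : Measure X) = ν := ext_of_forall_integral_eq_of_IsFiniteMeasure h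
  exact Subtype.ext this

/-- Invariance in terms of integrals. -/
theorem mem_inv_iff (hf : Continuous f) (μ : ProbabilityMeasure X) :
    μ ∈ Inv f ↔ ∀ g : BoundedContinuousFunction X ℝ,
      ∫ y, g (f y) ∂(μ : Measure X) = ∫ y, g y ∂(μ : Measure X) := by
  constructor
  · intro h g
    exact integral_iterate hf h 1 g.continuous
  · intro h
    have : IsProbabilityMeasure ((μ : Measure X).map f) :=
      Measure.isProbabilityMeasure_map hf.measurable.aemeasurable
    refine ext_of_forall_integral_eq_of_IsFiniteMeasure fun g => ?_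
    rw [integral_map hf.measurable.aemeasurable g.continuous.aestronglyMeasurable]
    exact h g

theorem inv_closed (hf : Continuous f) : IsClosed (Inv f) := by
  have e : Inv f = ⋂ g : BoundedContinuousFunction X ℝ,
      {μ : ProbabilityMeasure X | ∫ y, g (f y) ∂(μ : Measure X) = ∫ y, g y ∂(μ : Measure X)} := by
    ext μ
    rw [mem_inv_iff hf, Set.mem_iInter]
    rfl
  rw [e]
  refine isClosed_iInter fun g => isClosed_eq ?_ (cont_integral g)
  exact cont_integral (BoundedContinuousFunction.mkOfCompact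
    ⟨fun y => g (f y), g.continuous.comp hf⟩)

theorem inv_compact (hf : Continuous f) : IsCompact (Inv f) :=
  (inv_closed hf).isCompact

/-- Integrals with respect to a convex combination. -/
theorem integral_comb {a b : ℝ≥0∞} (ha : a ≠ ∞) (hb : b ≠ ∞) {μ ν : Measure X}
    [IsFiniteMeasure μ] [IsFiniteMeasure ν] {g : X → ℝ} (hg : Continuous g) :
    ∫ y, g y ∂(a • μ + b • ν) = a.toReal * ∫ y, g y ∂μ + b.toReal * ∫ y, g y ∂ν := by
  rw [integral_add_measure ((cont_int hg).smul_measure ha) ((cont_int hg).smul_measure hb),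
    integral_smul_measure, integral_smul_measure]
  rfl

/-- A continuous function attains its smallest integral at an ergodic measure. -/
theorem exists_ergodic_le (hf : Continuous f) {φ : X → ℝ} (hφ : Continuous φ)
    {ν0 : ProbabilityMeasure X} (h0 : ν0 ∈ Inv f) :
    ∃ ν : ProbabilityMeasure X, Ergodic f (ν : Measure X) ∧
      ∫ y, φ y ∂(ν : Measure X) ≤ ∫ y, φ y ∂(ν0 : Measure X) := by
  set Φ : BoundedContinuousFunction X ℝ := BoundedContinuousFunction.mkOfCompact ⟨φ, hφ⟩ with hΦ
  have hcφ : Continuous fun μ : ProbabilityMeasure X => ∫ y, φ y ∂(μ : Measure X) :=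
    cont_integral Φ
  obtain ⟨m0, hm0, hmin⟩ := (inv_compact hf).exists_isMinOn ⟨ν0, h0⟩ hcφ.continuousOn
  set K : Set (ProbabilityMeasure X) :=
    {μ | μ ∈ Inv f ∧ ∫ y, φ y ∂(μ : Measure X) = ∫ y, φ y ∂(m0 : Measure X)} with hK
  have hKc : IsCompact K := by
    refine IsClosed.isCompact ?_
    exact (inv_closed hf).inter (isClosed_eq hcφ continuous_const)
  set I : ProbabilityMeasure X → (BoundedContinuousFunction X ℝ → ℝ) :=
    fun μ g => ∫ y, g y ∂(μ : Measure X) with hI
  have hIc : Continuous I := continuous_pi fun g => cont_integral g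
  obtain ⟨e, he⟩ := (hKc.image hIc).extremePoints_nonempty ⟨I m0, m0, ⟨hm0, rfl⟩, rfl⟩
  obtain ⟨⟨ν, ⟨hν1, hν2⟩, rfl⟩, hext⟩ := he
  refine ⟨ν, ?_, ?_⟩
  · refine Ergodic.of_mem_extremePoints ⟨⟨⟨hf.measurable, hν1⟩, ν.prop⟩, ?_⟩
    rintro μ1 ⟨p1, q1⟩ μ2 ⟨p2, q2⟩ ⟨a, b, ha, hb, hab, hs⟩
    have ha' : a ≠ ∞ := fun h => by simp [h] at hab
    have hb' : b ≠ ∞ := fun h => by simp [h] at hab
    have hab' : a.toReal + b.toReal = 1 := by
      rw [← ENNReal.toReal_add ha' hb', hab, ENNReal.toReal_one]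
    have ha0 : 0 < a.toReal := ENNReal.toReal_pos ha.ne' ha'
    have hb0 : 0 < b.toReal := ENNReal.toReal_pos hb.ne' hb'
    set M1 : ProbabilityMeasure X := ⟨μ1, q1⟩ with hM1
    set M2 : ProbabilityMeasure X := ⟨μ2, q2⟩ with hM2
    have m1 : M1 ∈ Inv f := p1.map_eq
    have m2 : M2 ∈ Inv f := p2.map_eq
    have c : ∀ g : X → ℝ, Continuous g → ∫ y, g y ∂(ν : Measure X) =
        a.toReal * ∫ y, g y ∂μ1 + b.toReal * ∫ y, g y ∂μ2 := by
      intro g hg
      rw [← hs]
      exact integral_comb ha' hb' hg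
    have l1 : ∫ y, φ y ∂(m0 : Measure X) ≤ ∫ y, φ y ∂μ1 := hmin m1
    have l2 : ∫ y, φ y ∂(m0 : Measure X) ≤ ∫ y, φ y ∂μ2 := hmin m2
    have l3 := c φ hφ
    rw [hν2] at l3
    have l4 : a.toReal * (∫ y, φ y ∂μ1 - ∫ y, φ y ∂(m0 : Measure X)) +
        b.toReal * (∫ y, φ y ∂μ2 - ∫ y, φ y ∂(m0 : Measure X)) = 0 := by
      have : a.toReal * ∫ y, φ y ∂(m0 : Measure X) + b.toReal * ∫ y, φ y ∂(m0 : Measure X) =
          ∫ y, φ y ∂(m0 : Measure X) := by rw [← add_mul, hab', one_mul]
      linarith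
    have l5 : 0 ≤ a.toReal * (∫ y, φ y ∂μ1 - ∫ y, φ y ∂(m0 : Measure X)) :=
      mul_nonneg ha0.le (by linarith)
    have l6 : 0 ≤ b.toReal * (∫ y, φ y ∂μ2 - ∫ y, φ y ∂(m0 : Measure X)) :=
      mul_nonneg hb0.le (by linarith)
    have l7 : ∫ y, φ y ∂μ1 = ∫ y, φ y ∂(m0 : Measure X) := by
      have : a.toReal * (∫ y, φ y ∂μ1 - ∫ y, φ y ∂(m0 : Measure X)) = 0 := by linarith
      rcases mul_eq_zero.1 this with h | h
      · exact absurd h ha0.ne'
      · linarith
    have l8 : ∫ y, φ y ∂μ2 = ∫ y, φ y ∂(m0 : Measure X) := by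
      have : b.toReal * (∫ y, φ y ∂μ2 - ∫ y, φ y ∂(m0 : Measure X)) = 0 := by linarith
      rcases mul_eq_zero.1 this with h | h
      · exact absurd h hb0.ne'
      · linarith
    have k1 : I M1 ∈ I '' K := ⟨M1, ⟨m1, l7⟩, rfl⟩
    have k2 : I M2 ∈ I '' K := ⟨M2, ⟨m2, l8⟩, rfl⟩
    have k3 : I ν ∈ openSegment ℝ (I M1) (I M2) := by
      refine ⟨a.toReal, b.toReal, ha0, hb0, hab', ?_⟩
      funext g
      exact (c g g.continuous).symm
    have k4 := hext k1 k2 k3
    have k5 : M1 = ν := ext_prob fun g => congrFun k4 g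
    exact congrArg Subtype.val k5
  · rw [hν2]
    exact hmin h0

/-- **The ergodic measures are dense.** -/
theorem ergodic_dense (hf : Continuous f) (hsh : AverageShadowing f)
    {μ : ProbabilityMeasure X} (hμ : μ ∈ Inv f) :
    μ ∈ closure {ν : ProbabilityMeasure X | Ergodic f (ν : Measure X)} := by
  have key : ∀ p : Finset (BoundedContinuousFunction X ℝ) × ℕ,
      ∃ ν : ProbabilityMeasure X, Ergodic f (ν : Measure X) ∧ ∀ g ∈ p.1,
        |∫ y, g y ∂(ν : Measure X) - ∫ y, g y ∂(μ : Measure X)| ≤ 1 / ((p.2 : ℝ) + 1) := by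
    rintro ⟨F, m⟩
    obtain ⟨W, hW, ν0, hν0, h1⟩ := exists_imitation hf hsh hμ F (fun g y => g y)
      (fun g _ => g.continuous) (η := 1 / ((m : ℝ) + 1)) (by positivity)
    have hφ : Continuous fun y => ∑ g ∈ F,
        |av f W (fun y => g y) y - ∫ w, g w ∂(μ : Measure X)| :=
      continuous_finsetSum _ fun g _ =>
        ((av_cont hf W g.continuous).sub continuous_const).abs
    obtain ⟨ν, hν, h2⟩ := exists_ergodic_le hf hφ hν0
    refine ⟨ν, hν, fun g hg => ?_⟩
    have hνi : (ν : Measure X).map f = ν := hν.toMeasurePreserving.map_eq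
    have h3 : |∫ y, g y ∂(ν : Measure X) - ∫ y, g y ∂(μ : Measure X)| ≤
        ∫ y, |av f W (fun y => g y) y - ∫ w, g w ∂(μ : Measure X)| ∂(ν : Measure X) := by
      rw [← av_integral hf hW g.continuous hνi]
      have e : ∫ y, av f W (fun y => g y) y ∂(ν : Measure X) - ∫ y, g y ∂(μ : Measure X) =
          ∫ y, (av f W (fun y => g y) y - ∫ w, g w ∂(μ : Measure X)) ∂(ν : Measure X) := by
        rw [integral_sub (cont_int (av_cont hf W g.continuous)) (integrable_const _)]
        simp
      rw [e]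
      exact abs_integral_le_integral_abs
    have h4 : ∫ y, |av f W (fun y => g y) y - ∫ w, g w ∂(μ : Measure X)| ∂(ν : Measure X) ≤
        ∫ y, ∑ g ∈ F, |av f W (fun y => g y) y - ∫ w, g w ∂(μ : Measure X)|
          ∂(ν : Measure X) := by
      refine integral_mono (cont_int ((av_cont hf W g.continuous).sub continuous_const).abs)
        (cont_int hφ) fun y => ?_
      exact Finset.single_le_sum
        (f := fun g : BoundedContinuousFunction X ℝ =>
          |av f W (fun y => g y) y - ∫ w, g w ∂(μ : Measure X)|)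
        (fun g _ => abs_nonneg _) hg
    exact h3.trans (h4.trans (h2.trans h1))
  choose ν hν h using key
  classical
  refine mem_closure_of_tendsto (f := ν)
    (b := (atTop : Filter (Finset (BoundedContinuousFunction X ℝ) × ℕ))) ?_
    (Eventually.of_forall hν)
  rw [ProbabilityMeasure.tendsto_iff_forall_integral_tendsto]
  intro g
  have h1 : Tendsto (fun p : Finset (BoundedContinuousFunction X ℝ) × ℕ =>
      1 / ((p.2 : ℝ) + 1)) atTop (𝓝 0) := by
    rw [← prod_atTop_atTop_eq]
    exact tendsto_one_div_add_atTop_nhds_zero_nat.comp tendsto_snd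
  rw [tendsto_iff_norm_sub_tendsto_zero]
  refine squeeze_zero' (Eventually.of_forall fun p => norm_nonneg _) ?_ h1
  filter_upwards [eventually_ge_atTop (({g}, 0) :
    Finset (BoundedContinuousFunction X ℝ) × ℕ)] with p hp
  exact h p g (hp.1 (Finset.mem_singleton_self g))

end

end Pool.Agent.Lib.MP_883b72_an.AS
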